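import Pool.Agent.H84.FK.Targets2

set_option autoImplicit false

namespace Pool.Agent.H90.FKSW
open Pool.Agent.H84.FK

theorem pf_sw : T_SW := by
  intro G _ A A0 B B0 h
  refine ⟨h.fin, ?_, h.abB, h.abA, h.twoB, h.twoA, h.ns, ?_, h.quo, h.quot⟩
  · intro g
    obtain ⟨a, ha, b, hb, hab⟩ := h.fac g⁻¹
    refine ⟨b⁻¹, B.inv_mem hb, a⁻¹, A.inv_mem ha, ?_⟩
    rw [← mul_inv_rev, ← hab, inv_inv]
  · intro L hL hf
    refine h.sub L hL ?_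
    intro g hg
    obtain ⟨b, hb, hbL, a, ha, haL, hba⟩ := hf g⁻¹ (L.inv_mem hg)
    refine ⟨a⁻¹, A.inv_mem ha, L.inv_mem haL, b⁻¹, B.inv_mem hb, L.inv_mem hbL, ?_⟩
    rw [← mul_inv_rev, ← hba, inv_inv]

end Pool.Agent.H90.FKSW
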