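import Pool.Agent.H84.FK.Targets2

set_option autoImplicit false

namespace Pool.Agent.H90.FKSYL
open Pool.Agent.H84.FK
open scoped Pointwise

theorem mem_smul_sylow {G : Type} [Group G] {p : ℕ} (P : Sylow p G) (g x : G) :
    x ∈ (g • P : Sylow p G) ↔ g⁻¹ * x * g ∈ P := by
  change x ∈ (MulAut.conj g • (P : Subgroup G)) ↔ _
  rw [Subgroup.mem_pointwise_smul_iff_inv_smul_mem, MulAut.smul_def, MulAut.conj_inv_apply]
  rfl

theorem side {G : Type} [Group G] [Finite G] (A A0 : Subgroup G) (hT : Two A A0) (hAb : Ab A0)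
    (hcard : Nat.card A = 2 * Nat.card A0) (P : Sylow 2 A) :
    (∃ x : A, x ∈ P ∧ x.1 ∉ A0) ∧
      ∀ (x : G) (hx : x ∈ A0), (∃ k : ℕ, x ^ (2 ^ k) = 1) → (⟨x, hT.1 hx⟩ : A) ∈ P := by
  have : Fact (Nat.Prime 2) := ⟨Nat.prime_two⟩
  constructor
  · by_contra hc
    push Not at hc
    have hle : (P : Subgroup A).map A.subtype ≤ A0 := by
      rintro _ ⟨x, hx, rfl⟩
      exact hc x hx
    have h1 : Nat.card ((P : Subgroup A).map A.subtype) ∣ Nat.card A0 := Subgroup.card_dvd_of_le hle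
    rw [Subgroup.card_map_of_injective A.subtype_injective, Sylow.card_eq_multiplicity, hcard,
      Nat.factorization_mul (by norm_num) Nat.card_pos.ne'] at h1
    simp only [Finsupp.coe_add, Pi.add_apply, Nat.prime_two.factorization_self] at h1
    rw [add_comm] at h1
    exact Nat.pow_succ_factorization_not_dvd Nat.card_pos.ne' Nat.prime_two h1
  · let U : Subgroup A :=
      { carrier := {x | x.1 ∈ A0 ∧ ∃ k : ℕ, x.1 ^ (2 ^ k) = 1}
        mul_mem' := by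
          rintro x y ⟨hx, k, hk⟩ ⟨hy, l, hl⟩
          refine ⟨A0.mul_mem hx hy, k + l, ?_⟩
          have hcomm : Commute x.1 y.1 := hAb _ hx _ hy
          change (x.1 * y.1) ^ (2 ^ (k + l)) = 1
          rw [hcomm.mul_pow, pow_add, pow_mul, hk, one_pow, one_mul, mul_comm, pow_mul, hl, one_pow]
        one_mem' := ⟨A0.one_mem, 0, by simp⟩
        inv_mem' := by
          rintro x ⟨hx, k, hk⟩
          refine ⟨A0.inv_mem hx, k, ?_⟩
          change (x.1⁻¹) ^ (2 ^ k) = 1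
          rw [inv_pow, hk, inv_one] }
    have hUn : U.Normal := by
      refine ⟨?_⟩
      rintro x ⟨hx, k, hk⟩ g
      have hg : g.1 * x.1 * g.1⁻¹ ∈ A0 := by
        by_cases hgA : g.1 ∈ A0
        · exact A0.mul_mem (A0.mul_mem hgA hx) (A0.inv_mem hgA)
        · by_contra hn
          have h1 := hT.2 (g.1 * x.1 * g.1⁻¹)
            (A.mul_mem (A.mul_mem g.2 x.2) (A.inv_mem g.2)) g.1 g.2 hn hgA
          rw [inv_mul_cancel_right] at h1
          apply hgA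
          have := A0.mul_mem h1 (A0.inv_mem hx)
          rwa [mul_inv_cancel_right] at this
      refine ⟨hg, k, ?_⟩
      change (g.1 * x.1 * g.1⁻¹) ^ (2 ^ k) = 1
      rw [conj_pow, hk, mul_one, mul_inv_cancel]
    have hUp : IsPGroup 2 U := by
      rintro ⟨x, hx, k, hk⟩
      refine ⟨k, ?_⟩
      apply Subtype.ext
      apply Subtype.ext
      exact hk
    intro x hx hk
    exact hUp.le_sylow_of_normal P ⟨hx, hk⟩

theorem pf_syl (hD3 : T_D3) (hD4 : T_D4) : T_SYL := by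
  intro G _ A A0 B B0 h
  have : Fact (Nat.Prime 2) := ⟨Nat.prime_two⟩
  have := h.fin
  obtain ⟨-, -, hcA, hcB, hcG, -, -⟩ := hD4 G A A0 B B0 h
  obtain ⟨P⟩ : Nonempty (Sylow 2 A) := Sylow.nonempty
  obtain ⟨Q⟩ : Nonempty (Sylow 2 B) := Sylow.nonempty
  obtain ⟨S0, hS0⟩ := (P.2.map A.subtype).exists_le_sylow
  obtain ⟨S1, hS1⟩ := (Q.2.map B.subtype).exists_le_sylow
  obtain ⟨g, hg⟩ := MulAction.exists_smul_eq G S1 S0
  obtain ⟨a, ha, b, hb, hab⟩ := h.fac g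
  let S : Sylow 2 G := a⁻¹ • S0
  let P' : Sylow 2 A := (⟨a, ha⟩ : A)⁻¹ • P
  let Q' : Sylow 2 B := (⟨b, hb⟩ : B) • Q
  have hPS : ∀ x : A, x ∈ P' → x.1 ∈ S := by
    intro x hx
    rw [mem_smul_sylow] at hx ⊢
    exact hS0 ⟨_, hx, rfl⟩
  have hQS : ∀ y : B, y ∈ Q' → y.1 ∈ S := by
    intro y hy
    rw [mem_smul_sylow] at hy ⊢
    rw [← hg, mem_smul_sylow]
    have h2 : (g⁻¹ * (a⁻¹⁻¹ * y.1 * a⁻¹) * g) = b⁻¹ * y.1 * b := by
      rw [hab]; group
    rw [h2]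
    exact hS1 ⟨_, hy, rfl⟩
  obtain ⟨hA1, hA2⟩ := side A A0 h.twoA h.abA hcA P'
  obtain ⟨hB1, hB2⟩ := side B B0 h.twoB h.abB hcB Q'
  have hfac : ∀ x ∈ S, ∃ y : A, y ∈ P' ∧ ∃ z : B, z ∈ Q' ∧ x = y.1 * z.1 := by
    let f : ↥(P'.toSubgroup) × ↥(Q'.toSubgroup) → ↥(S.toSubgroup) := fun u =>
      ⟨u.1.1.1 * u.2.1.1, (S : Subgroup G).mul_mem (hPS _ u.1.2) (hQS _ u.2.2)⟩
    have hinj : Function.Injective f := by
      rintro ⟨x, y⟩ ⟨x', y'⟩ hxy
      have h1 : x.1.1 * y.1.1 = x'.1.1 * y'.1.1 := congrArg Subtype.val hxy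
      have h2 : x'.1.1⁻¹ * x.1.1 = y'.1.1 * y.1.1⁻¹ := by
        rw [inv_mul_eq_iff_eq_mul, ← mul_assoc, ← h1, mul_inv_cancel_right]
      have h3 : x'.1.1⁻¹ * x.1.1 = 1 := by
        refine hD3 G A A0 B B0 h 1 _ (y'.1.1 * y.1.1⁻¹) (A.mul_mem (A.inv_mem x'.1.2) x.1.2)
          (B.mul_mem y'.1.2 (B.inv_mem y.1.2)) ?_
        rw [one_mul, inv_one, mul_one]; exact h2
      have hx : x = x' := by
        apply Subtype.ext; apply Subtype.ext
        exact (inv_mul_eq_one.mp h3).symm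
      have hy : y = y' := by
        apply Subtype.ext; apply Subtype.ext
        rw [h2] at h3
        exact (mul_inv_eq_one.mp h3).symm
      rw [hx, hy]
    have hcard : Nat.card (↥(P'.toSubgroup) × ↥(Q'.toSubgroup)) = Nat.card ↥(S.toSubgroup) := by
      rw [Nat.card_prod]
      have e1 := Sylow.card_eq_multiplicity P'
      have e2 := Sylow.card_eq_multiplicity Q'
      have e3 := Sylow.card_eq_multiplicity S
      have hG : Nat.card G = Nat.card A * Nat.card B := by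
        rw [hcG, hcA, hcB]; ring
      rw [hG, Nat.factorization_mul Nat.card_pos.ne' Nat.card_pos.ne'] at e3
      simp only [Finsupp.coe_add, Pi.add_apply, pow_add] at e3
      rw [← e1, ← e2] at e3
      exact e3.symm
    have hbij : Function.Bijective f := (Nat.bijective_iff_injective_and_card f).mpr ⟨hinj, hcard⟩
    intro x hx
    obtain ⟨⟨y, z⟩, hyz⟩ := hbij.2 ⟨x, hx⟩
    exact ⟨y.1, y.2, z.1, z.2, (congrArg Subtype.val hyz).symm⟩
  refine ⟨S, ?_⟩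
  refine ⟨S.2, Sylow.not_dvd_index S, ?_, ?_, ?_, ?_, ?_⟩
  · intro x hx
    obtain ⟨y, hy, z, hz, hxyz⟩ := hfac x hx
    exact ⟨y.1, y.2, hPS y hy, z.1, z.2, hQS z hz, hxyz⟩
  · obtain ⟨x, hx, hx0⟩ := hA1
    exact ⟨x.1, hPS x hx, x.2, hx0⟩
  · obtain ⟨y, hy, hy0⟩ := hB1
    exact ⟨y.1, hQS y hy, y.2, hy0⟩
  · intro x hx hk
    exact hPS _ (hA2 x hx hk)
  · intro y hy hk
    exact hQS _ (hB2 y hy hk)

end Pool.Agent.H90.FKSYL
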