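import Pool.Agent.H84.FK.Targets2

set_option autoImplicit false

namespace Pool.Agent.H90.FKSGN
open Pool.Agent.H84.FK

theorem sign_invol {α : Type} [Fintype α] [DecidableEq α] (σ : Equiv.Perm α) (h : σ * σ = 1) :
    ∃ n : ℕ, σ.support.card = 2 * n ∧ Equiv.Perm.sign σ = (-1) ^ n := by
  by_cases h1 : σ = 1
  · subst h1
    exact ⟨0, by simp, by simp⟩
  · have ho : orderOf σ = 2 := orderOf_eq_prime (by rw [pow_two, h]) h1
    obtain ⟨n, hn⟩ := Equiv.Perm.cycleType_prime_order (σ := σ) (by rw [ho]; exact Nat.prime_two)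
    rw [ho] at hn
    refine ⟨n + 1, ?_, ?_⟩
    · rw [← Equiv.Perm.sum_cycleType, hn]
      simp [Multiset.sum_replicate]; ring
    · rw [Equiv.Perm.sign_of_cycleType, hn]
      simp only [Multiset.sum_replicate, Multiset.card_replicate, smul_eq_mul]
      rw [pow_add, pow_mul']
      simp

theorem rel_two {G : Type} [Group G] {S M : Subgroup G} (h : Two S M) (hne : M ≠ S) :
    M.relIndex S = 2 := by
  have hex : ∃ a ∈ S, a ∉ M := by
    by_contra hc
    push Not at hc
    exact hne (le_antisymm h.1 hc)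
  obtain ⟨a, haS, haM⟩ := hex
  rw [Subgroup.relIndex_eq_two_iff]
  refine ⟨a, haS, fun b hb => ?_⟩
  by_cases hbM : b ∈ M
  · right
    refine ⟨hbM, fun hba => haM ?_⟩
    have := M.mul_mem (M.inv_mem hbM) hba
    simpa using this
  · left
    exact ⟨h.2 b hb a haS hbM haM, hbM⟩

theorem smul_mk_eq {G : Type} [Group G] (H : Subgroup G) (v g : G) :
    v • (QuotientGroup.mk g : G ⧸ H) = QuotientGroup.mk g ↔ g⁻¹ * v * g ∈ H := by
  rw [MulAction.Quotient.smul_mk, eq_comm, QuotientGroup.eq]
  simp only [smul_eq_mul, mul_assoc]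

theorem pf_sgn : T_SGN := by
  classical
  intro G _ _ S M hT hne hodd
  have hrel := rel_two hT hne
  have : Fintype (G ⧸ M) := Fintype.ofFinite _
  have : Fintype (G ⧸ S) := Fintype.ofFinite _
  let ρ : G →* Equiv.Perm (G ⧸ M) := MulAction.toPermHom G (G ⧸ M)
  let τ : G →* Equiv.Perm (G ⧸ S) := MulAction.toPermHom G (G ⧸ S)
  have hρ : ∀ (v : G) (x : G ⧸ M), ρ v x = v • x := fun _ _ => rfl
  have hτ : ∀ (v : G) (x : G ⧸ S), τ v x = v • x := fun _ _ => rfl
  have hinv : ∀ v : G, v * v = 1 → ρ v * ρ v = 1 := fun v hv => by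
    rw [← map_mul, hv, map_one]
  have hinvτ : ∀ v : G, v * v = 1 → τ v * τ v = 1 := fun v hv => by
    rw [← map_mul, hv, map_one]
  refine ⟨Equiv.Perm.sign.comp ρ, ?_, ?_, ?_⟩
  · intro v hv hconj
    obtain ⟨n, hn, hs⟩ := sign_invol (ρ v) (hinv v hv)
    obtain ⟨m, hm, -⟩ := sign_invol (τ v) (hinvτ v hv)
    have hcard : (ρ v).support.card = (τ v).support.card * 2 := by
      let e := Subgroup.quotientEquivProdOfLE hT.1
      have he : ∀ g : G, (e (QuotientGroup.mk g)).1 = (QuotientGroup.mk g : G ⧸ S) := fun g => rfl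
      have h2 : Nat.card (S ⧸ M.subgroupOf S) = 2 := hrel
      have : Finite (S ⧸ M.subgroupOf S) := Nat.finite_of_card_ne_zero (by rw [h2]; norm_num)
      have : Fintype (S ⧸ M.subgroupOf S) := Fintype.ofFinite _
      have h3 : (Finset.univ : Finset (S ⧸ M.subgroupOf S)).card = 2 := by
        rw [Finset.card_univ, ← Nat.card_eq_fintype_card, h2]
      have h4 : (ρ v).support.card = ((τ v).support ×ˢ (Finset.univ : Finset (S ⧸ M.subgroupOf S))).card := by
        refine Finset.card_equiv e ?_
        intro x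
        obtain ⟨g, rfl⟩ := QuotientGroup.mk_surjective x
        simp only [Finset.mem_product, Finset.mem_univ, and_true, Equiv.Perm.mem_support, he, hρ, hτ,
          ne_eq, smul_mk_eq]
        constructor
        · intro h h'; exact h (hconj g h')
        · intro h h'; exact h (hT.1 h')
      rw [h4, Finset.card_product, h3]
    rw [MonoidHom.comp_apply, hs]
    have hnm : n = 2 * m := by omega
    rw [hnm, pow_mul]; simp
  · intro v hv hconj
    obtain ⟨n, hn, hs⟩ := sign_invol (ρ v) (hinv v hv)
    have hsup : (ρ v).support = Finset.univ := by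
      ext x
      obtain ⟨g, rfl⟩ := QuotientGroup.mk_surjective x
      simp only [Finset.mem_univ, iff_true, Equiv.Perm.mem_support, hρ, ne_eq, smul_mk_eq]
      exact hconj g
    have hidx : M.index = 2 * S.index := by
      rw [← Subgroup.relIndex_mul_index hT.1, hrel]
    have hc : (ρ v).support.card = M.index := by
      rw [hsup, Finset.card_univ, ← Nat.card_eq_fintype_card]; rfl
    have hns : n = S.index := by omega
    rw [MonoidHom.comp_apply, hs, hns]
    have : Odd S.index := Nat.not_even_iff_odd.mp (fun h => hodd h.two_dvd)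
    exact this.neg_one_pow
  · intro v hv
    rcases Int.units_eq_one_or ((Equiv.Perm.sign.comp ρ) v) with h | h
    · exact h
    · exfalso
      have h1 : ((Equiv.Perm.sign.comp ρ) v) ^ orderOf v = 1 := by
        rw [← map_pow, pow_orderOf_eq_one, map_one]
      rw [h] at h1
      have : Odd (orderOf v) := Nat.not_even_iff_odd.mp (fun h => hv h.two_dvd)
      rw [this.neg_one_pow] at h1
      exact absurd h1 (by decide)

end Pool.Agent.H90.FKSGN
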